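import Pool.Agent.H69.Conf3

namespace Pool.Agent.Results.MP_d5cca6_al.Counter
open Pool.Agent.H69.Hyp

/-- A finitely generated non-amenable group with cobounded focal isometric actions on two
geodesic hyperbolic spaces whose diagonal action on the `ℓ¹`-product is metrically proper. -/
theorem result : ∃ (G : Type) (_ : Group G), Group.FG G ∧ ¬ Amenable G ∧
    ∃ (X : Bool → Type) (_ : ∀ i, MetricSpace (X i)) (_ : ∀ i, MulAction G (X i)) (o : ∀ i, X i),
      (∀ i, IsIsometricSMul G (X i) ∧ IsGeod (X i) ∧ IsHyp (X i) ∧ Cobounded G (o i) ∧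
        Focal G (o i)) ∧
      ∀ B : Set (∀ i, X i), (∃ (x : ∀ i, X i) (R : ℝ), ∀ y ∈ B, ∑ i, dist (y i) (x i) ≤ R) →
        {g : G | ∃ y ∈ B, (fun i => g • y i) ∈ B}.Finite :=
  ⟨GF, inferInstance, GF_fg, GF_not_amen, SF, inferInstance, inferInstance, oF,
    fun b => ⟨inferInstance, cay_geod _, (nF b).conf.hyp _ (oF_dist b) (oF_cob b), oF_cob b,
      oF_focal b⟩,
    fun _ ⟨x, R, h⟩ => (proper x R).subset fun _ ⟨y, h1, h2⟩ => ⟨y, h y h1, h _ h2⟩⟩

end Pool.Agent.Results.MP_d5cca6_al.Counter
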